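import Mathlib

namespace Pool.Agent.Results.MP_5e019f_nt.Counter

open Finset Filter

/-- `m` is a perfect `d`-th power: `m = x ^ d` with `x` a positive integer. -/
def IsPow (d m : ℕ) : Prop := ∃ x : ℕ, 0 < x ∧ m = x ^ d

/-- `F_{k,d}(n)`: the largest size of `A ⊆ [n]` with no product of `k` pairwise distinct
elements a perfect `d`-th power. -/
noncomputable def F (k d n : ℕ) : ℕ :=
  sSup {s | ∃ A : Finset ℕ, A ⊆ Icc 1 n ∧ A.card = s ∧
    ∀ a : Fin k → ℕ, Function.Injective a → (∀ i, a i ∈ A) → ¬ IsPow d (∏ i, a i)}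

/-- `f_{k,d}(n)`: the same with repetitions allowed. -/
noncomputable def f (k d n : ℕ) : ℕ :=
  sSup {s | ∃ A : Finset ℕ, A ⊆ Icc 1 n ∧ A.card = s ∧
    ∀ a : Fin k → ℕ, (∀ i, a i ∈ A) → ¬ IsPow d (∏ i, a i)}

/-- The statement Q1. -/
def Q1 : Prop :=
  ∀ k d : ℕ, 1 < k → k < d → 4 ≤ d → ∃ c C : ℝ, 0 < c ∧ c ≤ C ∧ ∀ᶠ n : ℕ in atTop,
    c * (n : ℝ) ^ ((k : ℝ) / d) ≤ (n : ℝ) - F k d n ∧
    (n : ℝ) - F k d n ≤ (n : ℝ) - f k d n ∧
    (n : ℝ) - f k d n ≤ C * (n : ℝ) ^ ((k : ℝ) / d)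

lemma sqf_unique {s t u v : ℕ} (hs : Squarefree s) (hu : Squarefree u) (ht : t ≠ 0) (hv : v ≠ 0)
    (h : s * t ^ 2 = u * v ^ 2) : s = u := by
  have hs0 : s ≠ 0 := hs.ne_zero
  have hu0 : u ≠ 0 := hu.ne_zero
  apply Nat.eq_of_factorization_eq hs0 hu0
  intro p
  have h1 := congrArg (fun m => m.factorization p) h
  simp only [Nat.factorization_mul hs0 (pow_ne_zero 2 ht), Nat.factorization_mul hu0 (pow_ne_zero 2 hv),
    Nat.factorization_pow, Finsupp.add_apply, Finsupp.smul_apply, smul_eq_mul] at h1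
  have h2 := (Nat.squarefree_iff_factorization_le_one hs0).1 hs p
  have h3 := (Nat.squarefree_iff_factorization_le_one hu0).1 hu p
  omega

lemma sum_inv_sq (x : ℕ) : ∑ k ∈ Icc 2 (x + 2), (1 : ℝ) / (k : ℝ) ^ 2 ≤ 3 / 4 - 1 / (x + 2) := by
  induction x with
  | zero => norm_num
  | succ x ih =>
    rw [show x + 1 + 2 = (x + 2) + 1 by ring, Finset.sum_Icc_succ_top (by omega)]
    push_cast
    have h : (1 : ℝ) / ((x : ℝ) + 2 + 1) ^ 2 ≤ 1 / (x + 2) - 1 / (x + 1 + 2) := by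
      rw [div_sub_div _ _ (by positivity) (by positivity), div_le_div_iff₀ (by positivity) (by positivity)]
      have : (0 : ℝ) ≤ x := by positivity
      nlinarith
    linarith

lemma sqf_count (x : ℕ) : (x : ℝ) / 4 ≤ ((Icc 1 x).filter Squarefree).card := by
  have h1 : (Icc 1 x).filter (fun a => ¬ Squarefree a) ⊆
      (Icc 2 (x + 2)).biUnion (fun k => (Ioc 0 x).filter (fun a => k ^ 2 ∣ a)) := by
    intro a ha
    simp only [mem_filter, mem_Icc, mem_biUnion, mem_Ioc] at ha ⊢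
    obtain ⟨⟨h1, h2⟩, h3⟩ := ha
    rw [Nat.squarefree_iff_prime_squarefree] at h3
    push Not at h3
    obtain ⟨p, hp, hd⟩ := h3
    refine ⟨p, ⟨hp.two_le, ?_⟩, ⟨by omega, h2⟩, by rwa [sq]⟩
    have := Nat.le_of_dvd (by omega) (dvd_trans (Dvd.intro _ rfl) hd)
    omega
  have h2 : (((Icc 1 x).filter (fun a => ¬ Squarefree a)).card : ℝ) ≤ 3 / 4 * x := by
    calc _ ≤ (((Icc 2 (x + 2)).biUnion (fun k => (Ioc 0 x).filter (fun a => k ^ 2 ∣ a))).card : ℝ) := by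
          exact_mod_cast card_le_card h1
      _ ≤ ∑ k ∈ Icc 2 (x + 2), (((Ioc 0 x).filter (fun a => k ^ 2 ∣ a)).card : ℝ) := by
          exact_mod_cast card_biUnion_le
      _ ≤ ∑ k ∈ Icc 2 (x + 2), (x : ℝ) * (1 / (k : ℝ) ^ 2) := by
          apply sum_le_sum
          intro k hk
          rw [Nat.Ioc_filter_dvd_card_eq_div, mul_one_div]
          exact_mod_cast (Nat.cast_div_le (α := ℝ) (m := x) (n := k ^ 2))
      _ ≤ 3 / 4 * x := by
          rw [← mul_sum]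
          have := sum_inv_sq x
          have h0 : (0 : ℝ) ≤ 1 / ((x : ℝ) + 2) := by positivity
          have hx : (0 : ℝ) ≤ x := by positivity
          nlinarith
  have h3 := card_filter_add_card_filter_not (s := Icc 1 x) Squarefree
  have h4 : (((Icc 1 x).filter Squarefree).card : ℝ) +
      (((Icc 1 x).filter (fun a => ¬ Squarefree a)).card : ℝ) = x := by
    rw [Nat.card_Icc] at h3
    exact_mod_cast (by omega : _ + _ = x)
  linarith

/-- the triples -/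
def T (P : Finset ℕ) (s : ℕ) : Finset (Σ _ : ℕ, ℕ × ℕ) :=
  P.sigma (fun c => ((Icc 1 (c - 1)).filter Squarefree) ×ˢ Icc 1 (s / c ^ 2))

lemma key {c a c' a' t t' : ℕ} (hc : c.Prime) (hc' : c'.Prime) (ha : Squarefree a)
    (ha' : Squarefree a') (h1 : a < c) (h2 : a' < c') (ht : t ≠ 0) (ht' : t' ≠ 0)
    (h : a * c * t ^ 2 = a' * c' * t' ^ 2) : c = c' ∧ a = a' ∧ t = t' := by
  have cop : ∀ {a c : ℕ}, c.Prime → Squarefree a → a < c → Squarefree (a * c) := by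
    intro a c hc ha h
    rw [Nat.squarefree_mul_iff]
    refine ⟨?_, ha, hc.prime.squarefree⟩
    exact ((Nat.Prime.coprime_iff_not_dvd hc).2
      (Nat.not_dvd_of_pos_of_lt (Nat.pos_of_ne_zero ha.ne_zero) h)).symm
  have e := sqf_unique (cop hc ha h1) (cop hc' ha' h2) ht ht' h
  have hcc : c = c' := by
    by_contra hne
    have d1 : c ∣ a' := by
      rcases (Nat.Prime.dvd_mul hc).1 (e ▸ Dvd.intro_left a rfl : c ∣ a' * c') with h | h
      · exact h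
      · exact absurd ((Nat.prime_dvd_prime_iff_eq hc hc').1 h) hne
    have d2 : c' ∣ a := by
      rcases (Nat.Prime.dvd_mul hc').1 (e.symm ▸ Dvd.intro_left a' rfl : c' ∣ a * c) with h | h
      · exact h
      · exact absurd ((Nat.prime_dvd_prime_iff_eq hc' hc).1 h).symm hne
    have := Nat.le_of_dvd (Nat.pos_of_ne_zero ha'.ne_zero) d1
    have := Nat.le_of_dvd (Nat.pos_of_ne_zero ha.ne_zero) d2
    omega
  subst hcc
  have haa : a = a' := Nat.eq_of_mul_eq_mul_right hc.pos e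
  subst haa
  refine ⟨rfl, rfl, ?_⟩
  have := Nat.eq_of_mul_eq_mul_left (Nat.mul_pos (Nat.pos_of_ne_zero ha.ne_zero) hc.pos) h
  exact Nat.pow_left_injective (by norm_num) this

lemma cover (P : Finset ℕ) (hP : ∀ c ∈ P, c.Prime) (n : ℕ) (A : Finset ℕ)
    (hA : ∀ a : Fin 2 → ℕ, Function.Injective a → (∀ i, a i ∈ A) → ¬ IsPow 4 (∏ i, a i)) :
    (T P n.sqrt).card ≤ 2 * (Icc 1 n \ A).card := by
  set m1 : (Σ _ : ℕ, ℕ × ℕ) → ℕ := fun t => t.2.1 * t.1 * (t.2.2 * t.1) ^ 2 with hm1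
  set m2 : (Σ _ : ℕ, ℕ × ℕ) → ℕ := fun t => t.2.1 * t.1 * (t.2.2 * t.2.1) ^ 2 with hm2
  have mem : ∀ t ∈ T P n.sqrt, t.1.Prime ∧ Squarefree t.2.1 ∧ 1 ≤ t.2.1 ∧ t.2.1 < t.1 ∧ 1 ≤ t.2.2 ∧
      t.2.2 * t.1 ^ 2 ≤ n.sqrt := by
    rintro ⟨c, a, b⟩ ht
    simp only [T, mem_sigma, mem_product, mem_filter, mem_Icc] at ht ⊢
    obtain ⟨h1, ⟨⟨h2, h3⟩, h4⟩, h5, h6⟩ := ht
    have hc := hP c h1
    have := hc.two_le
    exact ⟨hc, h4, h2, by omega, h5, (Nat.le_div_iff_mul_le (pow_pos hc.pos 2)).1 h6⟩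
  have i1 : Set.InjOn m1 (T P n.sqrt) := by
    rintro ⟨c, a, b⟩ ht ⟨c', a', b'⟩ ht' h
    obtain ⟨p1, p2, p3, p4, p5, -⟩ := mem _ ht
    obtain ⟨q1, q2, q3, q4, q5, -⟩ := mem _ ht'
    simp only at p1 p2 p3 p4 p5 q1 q2 q3 q4 q5
    obtain ⟨rfl, rfl, e⟩ := key p1 q1 p2 q2 p4 q4 (Nat.mul_pos p5 p1.pos).ne'
      (Nat.mul_pos q5 q1.pos).ne' h
    rw [Nat.eq_of_mul_eq_mul_right p1.pos e]
  have i2 : Set.InjOn m2 (T P n.sqrt) := by
    rintro ⟨c, a, b⟩ ht ⟨c', a', b'⟩ ht' h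
    obtain ⟨p1, p2, p3, p4, p5, -⟩ := mem _ ht
    obtain ⟨q1, q2, q3, q4, q5, -⟩ := mem _ ht'
    simp only at p1 p2 p3 p4 p5 q1 q2 q3 q4 q5
    obtain ⟨rfl, rfl, e⟩ := key p1 q1 p2 q2 p4 q4 (Nat.mul_pos p5 p3).ne'
      (Nat.mul_pos q5 q3).ne' h
    rw [Nat.eq_of_mul_eq_mul_right p3 e]
  have hsub : T P n.sqrt ⊆ (T P n.sqrt).filter (fun t => m1 t ∈ Icc 1 n \ A) ∪
      (T P n.sqrt).filter (fun t => m2 t ∈ Icc 1 n \ A) := by
    rintro ⟨c, a, b⟩ ht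
    obtain ⟨p1, p2, p3, p4, p5, p6⟩ := mem _ ht
    simp only at p1 p2 p3 p4 p5 p6
    have hn : (b * c ^ 2) ^ 2 ≤ n := (Nat.pow_le_pow_left p6 2).trans (Nat.sqrt_le' n)
    have hlt : a * c * (b * a) ^ 2 < a * c * (b * c) ^ 2 := by
      have := p1.pos
      gcongr
    have hle : a * c * (b * c) ^ 2 ≤ n := by
      calc a * c * (b * c) ^ 2 ≤ c * c * (b * c) ^ 2 := by gcongr
        _ = (b * c ^ 2) ^ 2 := by ring
        _ ≤ n := hn
    have hpos : 0 < a * c * (b * a) ^ 2 := by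
      have := p1.pos
      positivity
    by_contra hcon
    rw [mem_union, mem_filter, mem_filter] at hcon
    have a1 : a * c * (b * c) ^ 2 ∈ A := by
      by_contra h
      exact hcon (Or.inl ⟨ht, mem_sdiff.2 ⟨mem_Icc.2 ⟨by simp only [hm1]; omega, hle⟩, h⟩⟩)
    have a2 : a * c * (b * a) ^ 2 ∈ A := by
      by_contra h
      exact hcon (Or.inr ⟨ht, mem_sdiff.2 ⟨mem_Icc.2 ⟨hpos, hlt.le.trans hle⟩, h⟩⟩)
    refine hA ![a * c * (b * c) ^ 2, a * c * (b * a) ^ 2] ?_ ?_ ⟨a * b * c, ?_, ?_⟩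
    · intro i j hij
      fin_cases i <;> fin_cases j <;> simp at hij ⊢ <;> omega
    · intro i
      fin_cases i
      · simpa using a1
      · simpa using a2
    · have := p1.pos
      positivity
    · rw [Fin.prod_univ_two]
      simp only [Matrix.cons_val_zero, Matrix.cons_val_one]
      ring
  have c1 : ((T P n.sqrt).filter (fun t => m1 t ∈ Icc 1 n \ A)).card ≤ (Icc 1 n \ A).card :=
    card_le_card_of_injOn m1 (fun t ht => (mem_filter.1 ht).2)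
      (i1.mono (fun t ht => (mem_filter.1 ht).1))
  have c2 : ((T P n.sqrt).filter (fun t => m2 t ∈ Icc 1 n \ A)).card ≤ (Icc 1 n \ A).card :=
    card_le_card_of_injOn m2 (fun t ht => (mem_filter.1 ht).2)
      (i2.mono (fun t ht => (mem_filter.1 ht).1))
  have := (card_le_card hsub).trans (card_union_le _ _)
  omega

lemma T_card (P : Finset ℕ) (hP : ∀ c ∈ P, c.Prime) (s : ℕ) (hs : ∀ c ∈ P, c ^ 2 ≤ s) :
    (s : ℝ) / 16 * ∑ c ∈ P, (1 : ℝ) / c ≤ (T P s).card := by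
  rw [T, card_sigma, mul_sum]
  push_cast
  apply sum_le_sum
  intro c hc
  rw [card_product, Nat.card_Icc]
  have h2 := (hP c hc).two_le
  have h1 := sqf_count (c - 1)
  rw [Nat.cast_sub (by omega)] at h1
  have hc2 : (2 : ℝ) ≤ c := by exact_mod_cast h2
  have hq : 1 ≤ s / c ^ 2 := (Nat.le_div_iff_mul_le (by positivity)).2 (by simpa using hs c hc)
  have hq2 : s ≤ 2 * (s / c ^ 2) * c ^ 2 := by
    have := Nat.lt_mul_div_succ s (b := c ^ 2) (by positivity)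
    nlinarith [show 0 < c ^ 2 by positivity]
  have hq3 : (s : ℝ) / (2 * c ^ 2) ≤ (s / c ^ 2 : ℕ) := by
    rw [div_le_iff₀ (by positivity)]
    have : (s : ℝ) ≤ 2 * (s / c ^ 2 : ℕ) * (c : ℝ) ^ 2 := by exact_mod_cast hq2
    linarith
  simp only [add_tsub_cancel_right]
  push_cast at h1 ⊢
  calc (s : ℝ) / 16 * (1 / c) = (c / 8) * (s / (2 * c ^ 2)) := by field_simp; ring
    _ ≤ _ := by
      apply mul_le_mul (by linarith) hq3 (by positivity) (by positivity)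

lemma big (C : ℝ) : ∃ P : Finset ℕ, (∀ c ∈ P, c.Prime) ∧ C ≤ ∑ c ∈ P, (1 : ℝ) / c := by
  by_contra h
  push Not at h
  apply Nat.Primes.not_summable_one_div
  apply summable_of_sum_le (c := C) (fun _ => by positivity)
  intro u
  have := h (u.map ⟨Subtype.val, Subtype.val_injective⟩) (by
    intro c hc
    obtain ⟨p, -, rfl⟩ := mem_map.1 hc
    exact p.2)
  rw [sum_map] at this
  exact this.le

lemma main (C : ℝ) : ∀ᶠ n : ℕ in atTop, C * Real.sqrt n ≤ (n : ℝ) - F 2 4 n := by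
  obtain ⟨P, hP, hC⟩ := big (64 * |C|)
  have ht : Tendsto Nat.sqrt atTop atTop := by
    refine tendsto_atTop_atTop.2 (fun b => ⟨b * b, fun n hn => Nat.le_sqrt.2 hn⟩)
  filter_upwards [ht.eventually_ge_atTop ((P.sup id) ^ 2 + 1)] with n hn
  have hs : ∀ c ∈ P, c ^ 2 ≤ n.sqrt := fun c hc => by
    have : c ≤ P.sup id := le_sup (f := id) hc
    have := Nat.pow_le_pow_left this 2
    omega
  have hmem : F 2 4 n ∈ {s | ∃ A : Finset ℕ, A ⊆ Icc 1 n ∧ A.card = s ∧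
      ∀ a : Fin 2 → ℕ, Function.Injective a → (∀ i, a i ∈ A) → ¬ IsPow 4 (∏ i, a i)} := by
    apply Nat.sSup_mem
    · exact ⟨0, ∅, by simp, rfl, fun a _ h => absurd (h 0) (by simp)⟩
    · refine ⟨n, ?_⟩
      rintro s ⟨A, hA, rfl, -⟩
      simpa using card_le_card hA
  obtain ⟨A, hA, hcard, hgood⟩ := hmem
  have h1 := cover P hP n A hgood
  have h2 := T_card P hP n.sqrt hs
  rw [card_sdiff_of_subset hA, Nat.card_Icc, hcard] at h1
  have hle : F 2 4 n ≤ n := by rw [← hcard]; simpa using card_le_card hA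
  have h3 : ((T P n.sqrt).card : ℝ) ≤ 2 * ((n : ℝ) - F 2 4 n) := by
    rw [← Nat.cast_sub hle]
    exact_mod_cast (by simpa using h1)
  have h4 : Real.sqrt n ≤ 2 * n.sqrt := by
    have := Real.real_sqrt_le_nat_sqrt_succ (a := n)
    have h5 : (1 : ℝ) ≤ n.sqrt := by exact_mod_cast (by omega : 1 ≤ n.sqrt)
    linarith
  have h6 : (0 : ℝ) ≤ n.sqrt := by positivity
  calc C * Real.sqrt n ≤ |C| * Real.sqrt n := by gcongr; exact le_abs_self C
    _ ≤ |C| * (2 * n.sqrt) := by gcongr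
    _ = (n.sqrt / 16 * (64 * |C|)) / 2 := by ring
    _ ≤ (n.sqrt / 16 * ∑ c ∈ P, (1 : ℝ) / c) / 2 := by gcongr
    _ ≤ _ := by linarith

theorem result : ¬ Q1 ∧
    ∀ C : ℝ, ∀ᶠ n : ℕ in atTop, C * Real.sqrt n ≤ (n : ℝ) - F 2 4 n := by
  refine ⟨fun h => ?_, main⟩
  obtain ⟨c, C, hc, hcC, hev⟩ := h 2 4 (by norm_num) (by norm_num) le_rfl
  obtain ⟨n, ⟨-, h2, h3⟩, h4, h5⟩ :=
    (hev.and ((main (C + 1)).and (eventually_ge_atTop 1))).exists
  have e : (n : ℝ) ^ (((2 : ℕ) : ℝ) / (4 : ℕ)) = Real.sqrt n := by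
    rw [Real.sqrt_eq_rpow]; norm_num
  rw [e] at h3
  have : 0 < Real.sqrt n := Real.sqrt_pos.2 (by exact_mod_cast h5)
  nlinarith

end Pool.Agent.Results.MP_5e019f_nt.Counter
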